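import Pool.Agent.helper56.CT.SpecA

/-!
# JZ4: second order congruence of the state sum
-/

namespace CT
open Finset

lemma JZ4_lp_le {D : Type*} [DecidableEq D] (e : D → D) (x y : D) : lp e x y ≤ 1 := by
  unfold lp; split_ifs <;> omega

theorem JZ4 (h3 : JZ3_stmt) : JZ4_stmt := by
  intro V _ L
  induction L with
  | nil => intro e; simp [Z]
  | cons u L ih =>
    intro e
    have hsum : Z 2 (u :: L) e + Z (-2) (u :: L) e - 2 * Z 0 (u :: L) e =
        ∑ t : Fin 3, ((2 : ℤ) ^ ls e u t * Z 2 L (sm e u t) + (-2) ^ ls e u t * Z (-2) L (sm e u t) -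
          2 * ((0 : ℤ) ^ ls e u t * Z 0 L (sm e u t))) := by
      simp only [Z, Finset.sum_sub_distrib, Finset.sum_add_distrib, Finset.mul_sum]
    rw [hsum]
    refine Finset.dvd_sum ?_
    intro t _
    have hk : ls e u t = 0 ∨ ls e u t = 1 ∨ ls e u t = 2 := by
      have h1 := JZ4_lp_le e (u, (pr t).1) (u, (pr t).2.1)
      have h2 := JZ4_lp_le (join e (u, (pr t).1) (u, (pr t).2.1)) (u, (pr t).2.2.1) (u, (pr t).2.2.2)
      unfold ls
      omega
    have hd : (4 : ℤ) ∣ Z 2 L (sm e u t) - Z (-2) L (sm e u t) := by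
      have := h3 V 2 (-2) L (sm e u t)
      norm_num at this
      exact this
    obtain ⟨m, hm⟩ := hd
    rcases hk with hk | hk | hk
    · rw [hk]
      have := ih (sm e u t)
      simpa using this
    · rw [hk]
      refine ⟨m, ?_⟩
      have : Z 2 L (sm e u t) = Z (-2) L (sm e u t) + 4 * m := by linarith
      rw [this]; ring
    · rw [hk]
      refine ⟨2 * m + Z (-2) L (sm e u t), ?_⟩
      have : Z 2 L (sm e u t) = Z (-2) L (sm e u t) + 4 * m := by linarith
      rw [this]; ring

end CT
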